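import Pool.Agent.Helper43.Gm.Goals

/-! # Packet B: prices of a run -/

set_option autoImplicit false

namespace Pool.Agent.Helper43.Gm.PkB

open Finset Pool.Agent.Helper43.Gm

/-- The price steps, for given units `u`. -/
def Ds (M : ℕ) (ν κ x : ℕ → ℕ) (u : ℕ → ℤ) (s : ℕ) : ℤ :=
  if x s = 0 then (4 * M + 4) * (2 * (4 * M + 4) * u (κ s))
  else if κ (s + 1) = κ s then
    2 * (4 * M + 4) * u (κ s) * ((x (s + 1) : ℤ) - x s) + 2 * u (κ s)
  else 2 * (4 * M + 4) * u (κ s) * ((ν (κ s) : ℤ) - x s) + (4 * M + 4) * u (κ s)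

/-- The price. -/
def pr (M : ℕ) (ν κ x : ℕ → ℕ) (u : ℕ → ℤ) (t : ℕ) : ℤ := ∑ s ∈ range t, Ds M ν κ x u s

/-- The bound of the steps. -/
def GG (M : ℕ) : ℤ := 2 * (4 * M + 4) * (4 * M + 5)

/-- Properties of the units. -/
structure Un (M R E : ℕ) (u : ℕ → ℤ) : Prop where
  pos : ∀ c, 0 < u c
  big : ∀ c c', c < c' → c < E → ((R : ℤ) + 1) * GG M * u c' < u c

theorem exists_un (M R E : ℕ) : ∃ u : ℕ → ℤ, Un M R E u := by
  have hG : 0 ≤ GG M := by unfold GG; positivity
  have hB : (1 : ℤ) ≤ ((R : ℤ) + 1) * GG M + 1 := by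
    have : 0 ≤ ((R : ℤ) + 1) * GG M := by positivity
    linarith
  refine ⟨fun c => (((R : ℤ) + 1) * GG M + 1) ^ (E - c), fun c => by positivity, ?_⟩
  intro c c' hc hE
  have h1 : E - c' + 1 ≤ E - c := by omega
  have h2 : 0 < (((R : ℤ) + 1) * GG M + 1) ^ (E - c') := by positivity
  have h3 : (((R : ℤ) + 1) * GG M + 1) ^ (E - c' + 1) ≤
      (((R : ℤ) + 1) * GG M + 1) ^ (E - c) := pow_le_pow_right₀ hB h1
  rw [pow_succ] at h3
  nlinarith

variable {M R E : ℕ} {ν κ x : ℕ → ℕ} {u : ℕ → ℤ}

theorem pr_succ (t : ℕ) : pr M ν κ x u (t + 1) = pr M ν κ x u t + Ds M ν κ x u t :=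
  sum_range_succ _ _

theorem mono' (h : Run M R ν κ x) {y z : ℕ} (hyz : y ≤ z) (hz : z < R) : κ y ≤ κ z := by
  induction z, hyz using Nat.le_induction with
  | base => exact le_rfl
  | succ z hyz ih => exact (ih (by omega)).trans (h.mono z hz)

/-- Bounds of the steps. -/
theorem Ds_bd (h : Run M R ν κ x) (hu : Un M R E u) {s : ℕ} (hs : s + 1 < R) :
    u (κ s) ≤ Ds M ν κ x u s ∧ Ds M ν κ x u s ≤ GG M * u (κ s) := by
  have hp := hu.pos (κ s)
  have hM : (0 : ℤ) ≤ M := Int.natCast_nonneg M
  unfold Ds GG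
  split_ifs with h1 h2
  · constructor <;> nlinarith [mul_nonneg hM hp.le, mul_nonneg hM (mul_nonneg hM hp.le)]
  · have h3 := h.inc s hs (Nat.pos_of_ne_zero h1) h2
    have h4 : x (s + 1) ≤ M := by
      have := h.le (s + 1) hs
      rw [h2] at this
      exact this.trans (h.νM _)
    have h5 : (1 : ℤ) ≤ (x (s + 1) : ℤ) - x s := by omega
    have h6 : (x (s + 1) : ℤ) - x s ≤ M := by omega
    have h7 : 0 ≤ 2 * (4 * (M : ℤ) + 4) * u (κ s) := by positivity
    constructor
    · nlinarith [mul_le_mul_of_nonneg_left h5 h7]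
    · have := mul_le_mul_of_nonneg_left h6 h7
      nlinarith [mul_nonneg hM hp.le, mul_nonneg hM (mul_nonneg hM hp.le)]
  · have h3 := h.le s (by omega)
    have h4 := h.νM (κ s)
    have h5 : (0 : ℤ) ≤ (ν (κ s) : ℤ) - x s := by omega
    have h6 : (ν (κ s) : ℤ) - x s ≤ M := by omega
    have h7 : 0 ≤ 2 * (4 * (M : ℤ) + 4) * u (κ s) := by positivity
    constructor
    · nlinarith [mul_nonneg h7 h5, mul_nonneg hM hp.le]
    · have := mul_le_mul_of_nonneg_left h6 h7
      nlinarith [mul_nonneg hM hp.le, mul_nonneg hM (mul_nonneg hM hp.le)]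

/-- Once the point is moving it is moving until it is old. -/
theorem moving (h : Run M R ν κ x) {y z : ℕ} (hyz : y ≤ z) (hz : z < R) (hx : 0 < x y)
    (hκ : κ z = κ y) : x y + (z - y) ≤ x z := by
  induction z, hyz using Nat.le_induction with
  | base => simp
  | succ z hyz ih =>
    have h1 := mono' h hyz (by omega : z < R)
    have h2 := h.mono z hz
    have h3 : κ z = κ y := by omega
    have h4 := ih (by omega) h3
    have h5 := h.inc z hz (by omega) (by omega)
    omega

/-- Differences of prices between old rows. -/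
theorem old_diff (h : Run M R ν κ x) (hu : Un M R E u) {c z z' : ℕ} (hzz : z ≤ z') (hz : z' < R)
    (hc : c < κ z) : 0 ≤ pr M ν κ x u z' - pr M ν κ x u z ∧ (c < E →
      ((R : ℤ) + 1) * (pr M ν κ x u z' - pr M ν κ x u z) ≤ (z' - z : ℕ) * u c) := by
  have hG : 0 ≤ GG M := by unfold GG; positivity
  induction z', hzz using Nat.le_induction with
  | base => simp
  | succ z' hzz ih =>
    obtain ⟨h1, h2⟩ := ih (by omega)
    obtain ⟨h3, h4⟩ := Ds_bd h hu hz
    have h5 := hu.pos (κ z')
    rw [pr_succ]
    refine ⟨by linarith, fun hcE => ?_⟩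
    have h6 := h2 hcE
    have h7 := mono' h hzz (by omega : z' < R)
    have h8 := hu.big c (κ z') (by omega) hcE
    have h9 : ((z' + 1 - z : ℕ) : ℤ) = ((z' - z : ℕ) : ℤ) + 1 := by omega
    rw [h9]
    have h10 : ((R : ℤ) + 1) * Ds M ν κ x u z' ≤ ((R : ℤ) + 1) * (GG M * u (κ z')) :=
      mul_le_mul_of_nonneg_left h4 (by positivity)
    nlinarith

theorem old_lt (h : Run M R ν κ x) (hu : Un M R E u) {c z z' : ℕ} (hzz : z ≤ z') (hz : z' < R)
    (hc : c < κ z) (hcE : c < E) : pr M ν κ x u z' - pr M ν κ x u z < u c := by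
  have h1 := (old_diff h hu hzz hz hc).2 hcE
  have h2 := hu.pos c
  have h3 : ((z' - z : ℕ) : ℤ) < (R : ℤ) + 1 := by omega
  have h4 : ((z' - z : ℕ) : ℤ) * u c < ((R : ℤ) + 1) * u c := mul_lt_mul_of_pos_right h3 h2
  have h5 : ((R : ℤ) + 1) * (pr M ν κ x u z' - pr M ν κ x u z) < ((R : ℤ) + 1) * u c := by linarith
  exact lt_of_mul_lt_mul_left h5 (by positivity)

/-- The prices at later rows of a moving point. -/
theorem mov_diff (h : Run M R ν κ x) {c y z : ℕ} (hyz : y ≤ z)
    (hz : z < R) (hy : κ y = c) (hx : 0 < x y) (hκ : κ z = c) :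
    pr M ν κ x u z - pr M ν κ x u y =
      2 * (4 * M + 4) * u c * ((x z : ℤ) - x y) + 2 * u c * (z - y : ℕ) := by
  induction z, hyz using Nat.le_induction with
  | base => simp
  | succ z hyz ih =>
    have h1 := mono' h hyz (by omega : z < R)
    have h2 := h.mono z hz
    have h3 : κ z = c := by omega
    have h4 := ih (by omega) h3
    have h5 := moving h hyz (by omega) hx (by omega)
    have h6 : x z ≠ 0 := by omega
    have h7 : ((z + 1 - y : ℕ) : ℤ) = ((z - y : ℕ) : ℤ) + 1 := by omega
    rw [pr_succ, h7]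
    have h8 : Ds M ν κ x u z =
        2 * (4 * M + 4) * u c * ((x (z + 1) : ℤ) - x z) + 2 * u c := by
      rw [Ds, if_neg h6, if_pos (by omega), h3]
    rw [h8]
    linear_combination h4

/-- The prices at the rows where the point is old. -/
theorem key (h : Run M R ν κ x) (hu : Un M R E u) {c y z : ℕ} (hyz : y ≤ z)
    (hz : z < R) (hy : κ y = c) (hx : 0 < x y) (hκ : c < κ z) (hcE : c < E) :
    0 < pr M ν κ x u z - pr M ν κ x u y - 2 * (4 * M + 4) * u c * ((ν c : ℤ) - x y) ∧
    pr M ν κ x u z - pr M ν κ x u y - 2 * (4 * M + 4) * u c * ((ν c : ℤ) - x y) <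
      2 * (4 * M + 4) * u c := by
  -- the last moving row
  have hex : ∃ w, y ≤ w ∧ w < z ∧ κ w = c ∧ c < κ (w + 1) := by
    by_contra hne
    have hall : ∀ w, y ≤ w → w ≤ z → κ w = c := by
      intro w hw
      induction w, hw using Nat.le_induction with
      | base => exact fun _ => hy
      | succ w hw ih =>
        intro hwz
        have h1 := ih (by omega)
        by_contra h2
        have h3 := h.mono w (by omega)
        exact hne ⟨w, hw, by omega, h1, by omega⟩
    have := hall z hyz le_rfl
    omega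
  obtain ⟨w, hyw, hwz, hw, hw1⟩ := hex
  have h1 := mov_diff (u := u) h hyw (by omega) hy hx hw
  have h2 := moving h hyw (by omega) hx (by omega)
  have h3 : Ds M ν κ x u w =
      2 * (4 * M + 4) * u c * ((ν c : ℤ) - x w) + (4 * M + 4) * u c := by
    rw [Ds, if_neg (by omega), if_neg (by omega), hw]
  have h4 := (old_diff h hu (by omega : w + 1 ≤ z) hz hw1).1
  have h5 := old_lt h hu (by omega : w + 1 ≤ z) hz hw1 hcE
  rw [pr_succ, h3] at h4 h5
  have h6 := hu.pos c
  have h7 : x w ≤ ν c := by
    have := h.le w (by omega)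
    rwa [hw] at this
  have h8 := h.νM c
  have h9 : ((w - y : ℕ) : ℤ) ≤ M := by omega
  have h10 : (0 : ℤ) ≤ ((w - y : ℕ) : ℤ) := Int.natCast_nonneg _
  have h11 : 2 * u c * ((w - y : ℕ) : ℤ) ≤ 2 * u c * M :=
    mul_le_mul_of_nonneg_left h9 (by positivity)
  have h12 : 0 ≤ 2 * u c * ((w - y : ℕ) : ℤ) := by positivity
  have hM : (0 : ℤ) ≤ M := Int.natCast_nonneg M
  have h13 : 0 ≤ (M : ℤ) * u c := by positivity
  constructor <;> nlinarith

/-- The rows before the rows of the point. -/
theorem early (h : Run M R ν κ x) (hu : Un M R E u) {c y z S : ℕ} (hyz : y < z)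
    (hz : z < R) (hy : κ y < c ∨ (κ y = c ∧ x y = 0)) (hcE : c < E)
    (hS : ∀ w < R, κ w ≤ c ↔ w < S) :
    (4 * M + 3) * (2 * (4 * M + 4) * u c) - 2 * (4 * M + 4) * u c * (z + 1 - S : ℕ) ≤
      (pr M ν κ x u z - 2 * (4 * M + 4) * u c * z) -
        (pr M ν κ x u y - 2 * (4 * M + 4) * u c * y) := by
  have h6 := hu.pos c
  have hM : (0 : ℤ) ≤ M := Int.natCast_nonneg M
  have hε : 0 ≤ 2 * (4 * (M : ℤ) + 4) * u c := by positivity
  -- the steps at early rows
  have hst : ∀ w, w + 1 < R → (κ w < c ∨ (κ w = c ∧ x w = 0)) →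
      (4 * M + 4) * (2 * (4 * M + 4) * u c) ≤ Ds M ν κ x u w := by
    intro w hw hwe
    rcases hwe with h1 | ⟨h1, h2⟩
    · have h2 := (Ds_bd h hu hw).1
      have h3 := hu.big (κ w) c h1 (by omega)
      have h4 : GG M * u c ≤ ((R : ℤ) + 1) * GG M * u c := by
        have : 0 ≤ (R : ℤ) * (GG M * u c) := by unfold GG; positivity
        nlinarith
      have h5 : (4 * M + 4) * (2 * (4 * M + 4) * u c) ≤ GG M * u c := by
        unfold GG
        nlinarith
      linarith
    · rw [Ds, if_pos h2, h1]
  induction z, hyz using Nat.le_induction with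
  | base =>
    have h1 := hst y hz hy
    rw [pr_succ]
    have h2 : 0 ≤ 2 * (4 * (M : ℤ) + 4) * u c * (y.succ + 1 - S : ℕ) := by positivity
    push_cast at h2 ⊢
    linarith
  | succ z hyz ih =>
    have h1 := ih (by omega)
    rw [pr_succ]
    by_cases hzS : z + 1 < S
    · have h2 : z + 1 - S = 0 := by omega
      have h3 : z + 1 + 1 - S = 0 := by omega
      rw [h2] at h1
      rw [h3]
      have h4 : κ (z + 1) ≤ c := (hS _ hz).2 hzS
      have h5 := h.mono z hz
      have h7 : 2 * (4 * (M : ℤ) + 4) * u c ≤ Ds M ν κ x u z := by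
        by_cases he : κ z < c ∨ (κ z = c ∧ x z = 0)
        · have := hst z hz he
          have h8 : 0 ≤ (4 * (M : ℤ) + 3) * (2 * (4 * M + 4) * u c) := by positivity
          linarith
        · have h8 : κ z = c ∧ x z ≠ 0 := by omega
          rw [Ds, if_neg h8.2, if_pos (by omega), h8.1]
          have h9 := h.inc z hz (by omega) (by omega)
          have h10 : (1 : ℤ) ≤ (x (z + 1) : ℤ) - x z := by omega
          have h11 := mul_le_mul_of_nonneg_left h10 hε
          linarith
      push_cast at h1 ⊢
      linarith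
    · have h2 : ((z + 1 + 1 - S : ℕ) : ℤ) = ((z + 1 - S : ℕ) : ℤ) + 1 := by omega
      rw [h2]
      have h3 := (Ds_bd h hu hz).1
      have h4 := hu.pos (κ z)
      push_cast at h1 ⊢
      linarith

theorem goalB : GoalB := by
  intro M R ν κ x h
  obtain ⟨u, hu⟩ := exists_un M R (∑ y ∈ range R, κ y + 1)
  set E := ∑ y ∈ range R, κ y + 1 with hE
  refine ⟨pr M ν κ x u, fun c => 2 * (4 * M + 4) * u c, ?_⟩
  intro N c _ y hy hn
  have hcy : c ≤ κ y := by
    by_contra hlt
    rw [nn, if_pos (by omega)] at hn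
    omega
  have hcE : c < E := by
    have : κ y ≤ ∑ y ∈ range R, κ y := single_le_sum (fun _ _ => Nat.zero_le _) (mem_range.2 hy)
    omega
  have h6 := hu.pos c
  have hM : (0 : ℤ) ≤ M := Int.natCast_nonneg M
  have hε : 0 < 2 * (4 * (M : ℤ) + 4) * u c := by positivity
  have hνM := h.νM c
  -- the first old row
  set S := st κ c R with hS
  have hSR : ∀ w < R, κ w ≤ c ↔ w < S := by
    intro w hw
    constructor
    · intro h1
      have h2 : range (w + 1) ⊆ (range R).filter (fun y => κ y ≤ c) := by
        intro y' hy'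
        rw [mem_range] at hy'
        rw [mem_filter, mem_range]
        exact ⟨by omega, (mono' h (by omega) hw).trans h1⟩
      have h3 := card_le_card h2
      rw [card_range] at h3
      exact h3
    · intro h1
      by_contra h2
      have h3 : (range R).filter (fun y => κ y ≤ c) ⊆ range w := by
        intro y' hy'
        rw [mem_filter, mem_range] at hy'
        rw [mem_range]
        by_contra h4
        have := mono' h (by omega : w ≤ y') hy'.1
        omega
      have h4 := card_le_card h3
      rw [card_range] at h4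
      have h5 : S = ((range R).filter (fun y => κ y ≤ c)).card := rfl
      omega
  rcases Nat.lt_or_ge c (κ y) with hlt | hge
  · -- `c` is old at `y`
    have hSy : S ≤ y := by
      by_contra h1
      have := (hSR y hy).2 (by omega)
      omega
    have hst : st κ c y = S := by
      have h1 : (range y).filter (fun y => κ y ≤ c) = (range R).filter (fun y => κ y ≤ c) := by
        ext w
        rw [mem_filter, mem_filter, mem_range, mem_range]
        constructor
        · rintro ⟨h1, h2⟩
          exact ⟨by omega, h2⟩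
        · rintro ⟨h1, h2⟩
          have := (hSR w h1).1 h2
          exact ⟨by omega, h2⟩
      exact congrArg card h1
    have hnn : nn κ x ν c y = ν c - (y - S) - (mv κ x ν c y).card := by
      rw [nn, if_neg (by omega), if_neg (by omega), hst]
    refine ⟨Ico S y ∪ mv κ x ν c y, ?_, ?_, ?_⟩
    · simp [mv]
    · have h1 := card_union_le (Ico S y) (mv κ x ν c y)
      rw [Nat.card_Ico] at h1
      omega
    · intro y' hy' hU hne
      rw [mem_union, not_or, mem_Ico] at hU
      obtain ⟨hU1, hU2⟩ := hU
      rcases Nat.lt_or_ge c (κ y') with h1 | h1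
      · -- old
        have hSy' : S ≤ y' := by
          by_contra h2
          have := (hSR y' hy').2 (by omega)
          omega
        have h2 : y < y' := by omega
        have h3 := old_lt h hu h2.le hy' hlt hcE
        have h4 : (1 : ℤ) ≤ (y' : ℤ) - y := by omega
        have h5 := mul_le_mul_of_nonneg_left h4 hε.le
        nlinarith [mul_nonneg hM h6.le]
      · have hy'y : y' < y := by
          have := (hSR y' hy').1 h1
          omega
        by_cases he : κ y' < c ∨ (κ y' = c ∧ x y' = 0)
        · have h2 := early h hu hy'y hy he hcE hSR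
          have h3 : ((y + 1 - S : ℕ) : ℤ) ≤ M := by omega
          have h4 := mul_le_mul_of_nonneg_left h3 hε.le
          have h5 : 0 < (3 * (M : ℤ) + 3) * (2 * (4 * M + 4) * u c) := by positivity
          nlinarith
        · have h8 : κ y' = c ∧ 0 < x y' := by omega
          have h9 : x y' + y ≤ ν c + y' := by
            by_contra h9
            apply hU2
            rw [mv, mem_filter, mem_range]
            exact ⟨hy'y, h8.1, h8.2, by omega⟩
          have h10 := (key h hu hy'y.le hy h8.1 h8.2 hlt hcE).1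
          have h11 : (0 : ℤ) ≤ (ν c : ℤ) - x y' - (y - y') := by omega
          have h12 := mul_nonneg hε.le h11
          nlinarith
  · -- `c` is moving at `y`
    have hκy : κ y = c := by omega
    have hnn : nn κ x ν c y = x y := by
      rw [nn, if_neg (by omega), if_pos hκy]
    rw [hnn] at hn ⊢
    have hxν : x y ≤ ν c := by
      have := h.le y hy
      rwa [hκy] at this
    refine ⟨Ico (y + 1) (y + 1 + (ν c - x y)), ?_, ?_, ?_⟩
    · simp
    · rw [Nat.card_Ico]
      omega
    · intro y' hy' hU hne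
      rw [mem_Ico] at hU
      rcases Nat.lt_or_ge y' y with h1 | h1
      · by_cases he : κ y' < c ∨ (κ y' = c ∧ x y' = 0)
        · have h2 := early h hu h1 hy he hcE hSR
          have h3 : y + 1 - S = 0 := by
            have := (hSR y hy).1 (by omega)
            omega
          rw [h3] at h2
          have h5 : 0 < (4 * (M : ℤ) + 3) * (2 * (4 * M + 4) * u c) := by positivity
          push_cast at h2
          linarith
        · have h7 := mono' h h1.le hy
          have h8 : κ y' = c ∧ 0 < x y' := by omega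
          have h9 := mov_diff (u := u) h h1.le hy h8.1 h8.2 hκy
          have h10 := moving h h1.le hy h8.2 (by omega)
          have h11 : (0 : ℤ) ≤ (x y : ℤ) - x y' - (y - y') := by omega
          have h12 := mul_nonneg hε.le h11
          have h13 : (1 : ℤ) ≤ ((y - y' : ℕ) : ℤ) := by omega
          have h14 := mul_le_mul_of_nonneg_left h13 (by positivity : 0 ≤ 2 * u c)
          nlinarith
      · have h2 : y + 1 + (ν c - x y) ≤ y' := by omega
        have h3 : c < κ y' := by
          by_contra h4
          have h5 := mono' h h1 hy'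
          have h7 := moving h h1 hy' hn (by omega)
          have h8 := h.le y' hy'
          have h9 : κ y' = c := by omega
          rw [h9] at h8
          omega
        have h10 := (key h hu h1 hy' hκy hn h3 hcE).2
        have h11 : (ν c : ℤ) - x y - (y' - y) ≤ -1 := by omega
        have h12 := mul_le_mul_of_nonneg_left h11 hε.le
        nlinarith

end Pool.Agent.Helper43.Gm.PkB
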