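import Pool.Agent.Helper43.Gm.Goals
import Pool.Agent.Helper43.Gm.Goals2
import Pool.Agent.Helper18.Tw.Shape

/-! # Packet H1: a thick region -/

set_option autoImplicit false

namespace Pool.Agent.Helper43.Gm.PkH1

open Finset Pool.Agent.Lead.Sh Pool.Agent.Helper43.Gm
open Helper18.Tw (Hgt row_top row_drop row_ge card_rows_sum lam21)
open Pool.Agent.Lead.Rw (Ind' rowS rowc mem_rowS)

/-- An interval of natural numbers. -/
theorem interval (X : Finset ℕ) (hX : ∀ a ∈ X, ∀ b ∈ X, ∀ k, a ≤ k → k ≤ b → k ∈ X) :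
    ∃ s, ∀ k, k ∈ X ↔ s ≤ k ∧ k < s + X.card := by
  rcases X.eq_empty_or_nonempty with he | he
  · subst he
    exact ⟨0, fun k => by simp⟩
  · have h1 : X = Icc (X.min' he) (X.max' he) := by
      ext k
      rw [mem_Icc]
      exact ⟨fun hk => ⟨X.min'_le k hk, X.le_max' k hk⟩,
        fun hk => hX _ (X.min'_mem he) _ (X.max'_mem he) k hk.1 hk.2⟩
    have h2 : X.card = X.max' he + 1 - X.min' he := by
      have := congrArg card h1
      rwa [Nat.card_Icc] at this
    have h3 := X.min'_le _ (X.max'_mem he)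
    refine ⟨X.min' he, fun k => ?_⟩
    constructor
    · intro hk
      have h4 := X.min'_le k hk
      have h5 := X.le_max' k hk
      omega
    · intro hk
      exact hX _ (X.min'_mem he) _ (X.max'_mem he) k hk.1 (by omega)

variable {f : ℕ → ℕ} {w κ : ℕ} {D : Finset (ℕ × ℕ)}

theorem reg (h : Hgt f w κ) (hD : ∀ d, d ∈ D ↔ d.1 < f d.2) :
    ∃ s : ℕ → ℕ, Reg 2 (w + 2 * κ) s (rowc 2 1 D) D := by
  classical
  have hfst : ∀ c, ((rowS 2 1 D c).image Prod.fst).card = rowc 2 1 D c := by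
    intro c
    rw [rowc]
    apply card_image_of_injOn
    intro x hx y hy hxy
    rw [mem_coe, mem_rowS, lam21] at hx hy
    exact Prod.ext hxy (by omega)
  have hmem : ∀ c k, k ∈ (rowS 2 1 D c).image Prod.fst ↔ 2 * k ≤ c ∧ k < f (c - 2 * k) := by
    intro c k
    rw [mem_image]
    constructor
    · rintro ⟨d, hd, rfl⟩
      rw [mem_rowS, lam21, hD] at hd
      have h1 : c - 2 * d.1 = d.2 := by omega
      rw [h1]
      exact ⟨by omega, hd.1⟩
    · rintro ⟨h1, h2⟩
      refine ⟨(k, c - 2 * k), ?_, rfl⟩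
      rw [mem_rowS, lam21, hD]
      exact ⟨h2, by simp only; omega⟩
  have hint : ∀ c, ∃ s, ∀ k, k ∈ (rowS 2 1 D c).image Prod.fst ↔ s ≤ k ∧
      k < s + rowc 2 1 D c := by
    intro c
    rw [← hfst c]
    apply interval
    intro a ha b hb k hak hkb
    rw [hmem] at ha hb ⊢
    refine ⟨by omega, ?_⟩
    rcases Nat.lt_or_ge (c - 2 * k) w with h1 | h1
    · rw [h.wall _ h1]
      have := h.le (c - 2 * b)
      omega
    · have h2 : c - 2 * a = c - 2 * k + 2 * (k - a) := by omega
      have h3 := h.far h1 (2 * (k - a)) (by rw [← h2]; omega)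
      rw [← h2] at h3
      omega
  choose s hs using hint
  refine ⟨s, ?_, ?_⟩
  · intro d
    rw [← hs, hmem]
    have h1 : 2 * d.1 + d.2 - 2 * d.1 = d.2 := by omega
    rw [h1, hD]
    constructor
    · intro h2
      have := h.top (b := d.2) (by omega)
      exact ⟨by omega, by omega, h2⟩
    · exact fun h2 => h2.2.2
  · intro y _ k h1 h2
    have := (hmem y k).1 ((hs y k).2 ⟨h1, h2⟩)
    exact this.1

/-- The rows in the middle. -/
theorem thick (h : Hgt f w κ) (hD : ∀ d, d ∈ D ↔ d.1 < f d.2) {T : ℕ} (hT : 1 ≤ T)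
    (hw : 2 * T ≤ w) (hκ : T ≤ κ) {c : ℕ} (hc1 : 2 * T - 1 ≤ c) (hc2 : c < w + 2 * κ - 2 * T) :
    T ≤ rowc 2 1 D c := by
  rcases Nat.lt_or_ge c (2 * κ) with h6 | h6
  · apply row_ge hD (b0 := c % 2) (y0 := c / 2) (by omega) (by omega)
    intro i hi
    rw [h.wall _ (by omega)]
    omega
  · apply row_ge hD (b0 := c - 2 * (κ - 1)) (y0 := κ - 1) (by omega) (by omega)
    intro i hi
    rw [h.wall _ (by omega)]
    omega

/-- The rows at the end. -/
theorem row_end (h : Hgt f w κ) (hD : ∀ d, d ∈ D ↔ d.1 < f d.2) (j : ℕ) (hj : j ≤ w + 2 * κ) :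
    rowc 2 1 D (w + 2 * κ - j) ≤ j := by
  induction j with
  | zero => rw [row_top h hD (by omega)]
  | succ j ih =>
    have h1 := row_drop h hD (w + 2 * κ - (j + 1))
    have h2 : w + 2 * κ - (j + 1) + 1 = w + 2 * κ - j := by omega
    rw [h2] at h1
    have := ih (by omega)
    omega

/-- The rows at the beginning. -/
theorem row_start (c : ℕ) : rowc 2 1 D c ≤ c / 2 + 1 := by
  classical
  have h1 : rowc 2 1 D c ≤ (range (c / 2 + 1)).card := by
    rw [rowc]
    apply card_le_card_of_injOn Prod.fst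
    · intro d hd
      rw [mem_coe, mem_rowS, lam21] at hd
      rw [mem_coe, mem_range]
      omega
    · intro x hx y hy hxy
      rw [mem_coe, mem_rowS, lam21] at hx hy
      exact Prod.ext hxy (by omega)
  rwa [card_range] at h1

theorem sum_start (T : ℕ) (hT : 1 ≤ T) :
    ∑ c ∈ range (2 * T - 1), rowc 2 1 D c ≤ T ^ 2 := by
  have h1 : ∑ c ∈ range (2 * T - 1), rowc 2 1 D c ≤ ∑ c ∈ range (2 * T - 1), (c / 2 + 1) :=
    sum_le_sum fun c _ => row_start c
  have h2 : ∀ n : ℕ, ∑ c ∈ range (2 * n + 1), (c / 2 + 1) = (n + 1) ^ 2 := by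
    intro n
    induction n with
    | zero => simp
    | succ n ih =>
      have e : 2 * (n + 1) + 1 = 2 * n + 1 + 1 + 1 := by ring
      rw [e, sum_range_succ, sum_range_succ, ih]
      have h3 : (2 * n + 1) / 2 = n := by omega
      have h4 : (2 * n + 1 + 1) / 2 = n + 1 := by omega
      rw [h3, h4]
      ring
  have h3 := h2 (T - 1)
  have h4 : 2 * (T - 1) + 1 = 2 * T - 1 := by omega
  have h5 : T - 1 + 1 = T := by omega
  rw [h4, h5] at h3
  omega

theorem sum_end (h : Hgt f w κ) (hD : ∀ d, d ∈ D ↔ d.1 < f d.2) (k : ℕ) (hk : k ≤ w + 2 * κ) :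
    2 * ∑ c ∈ Ico (w + 2 * κ - k) (w + 2 * κ), rowc 2 1 D c ≤ k * (k + 1) := by
  induction k with
  | zero => simp
  | succ k ih =>
    have h1 : w + 2 * κ - (k + 1) + 1 = w + 2 * κ - k := by omega
    have h2 := sum_eq_sum_Ico_succ_bot (by omega : w + 2 * κ - (k + 1) < w + 2 * κ)
      (rowc 2 1 D)
    rw [h1] at h2
    rw [h2]
    have h3 := ih (by omega)
    have h4 := row_end h hD (k + 1) hk
    nlinarith

theorem goalH1 (h1 : GoalF1) (h2 : GoalF2) : GoalH1 := by
  intro f w κ M D' h hD hM hw hκ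
  obtain ⟨s, hreg⟩ := reg h hD
  set R := w + 2 * κ with hR
  have hR1 : rowc 2 1 D' (R - 1) ≤ 1 := row_end h hD 1 (by omega)
  constructor
  · intro m a b hab hm hsum
    set Bd : Finset ℕ := Icc 1 (4 * M + 1) ∪ Icc (R - (4 * M + 1)) (R - 1) with hBd
    have hcard : Bd.card ≤ 8 * M + 2 := by
      have := card_union_le (Icc 1 (4 * M + 1)) (Icc (R - (4 * M + 1)) (R - 1))
      rw [← hBd, Nat.card_Icc, Nat.card_Icc] at this
      omega
    have hcl : cl R Bd ≤ 1 := by
      have h3 : Bd.filter (fun z => z + 1 < R ∧ z + 1 ∉ Bd) ⊆ {4 * M + 1} := by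
        intro z hz
        rw [mem_filter, hBd, mem_union, mem_union, mem_Icc, mem_Icc, mem_Icc, mem_Icc] at hz
        rw [mem_singleton]
        omega
      have := card_le_card h3
      rwa [card_singleton] at this
    refine h1 2 M R s (rowc 2 1 D') (rowc 2 1 D') D' Bd hreg (Or.inl rfl) (by omega) (by omega)
      ?_ (fun y _ => row_drop h hD y) ?_ m a b (10 * M ^ 2) hab hm ?_ hsum
    · rw [hBd, mem_union, mem_Icc, mem_Icc]
      omega
    · intro y hy hyB
      right
      rw [hBd, mem_union, mem_Icc, mem_Icc] at hyB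
      exact thick h hD (by omega) (by omega) (by omega) (by omega) (by omega)
    · left
      refine ⟨?_, ?_⟩
      · rw [hBd, mem_union, mem_Icc, mem_Icc]
        omega
      · have e1 : 2 * M * Bd.card ≤ 2 * M * (8 * M + 2) := Nat.mul_le_mul_left _ hcard
        have e2 : M * (M - 1) * cl R Bd ≤ M * (M - 1) * 1 := Nat.mul_le_mul_left _ hcl
        have e3 : (rowc 2 1 D' (R - 1) + M) * (rowc 2 1 D' (R - 1) + M - 1) ≤ (1 + M) * M :=
          Nat.mul_le_mul (by omega) (by omega)
        obtain ⟨k, rfl⟩ := Nat.exists_eq_add_of_le hM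
        have e4 : 2 + k - 1 = 1 + k := by omega
        rw [e4] at e2 ⊢
        nlinarith
  · intro m a b hab hm hsum
    refine h2 2 M R (4 * M + 1) (R - (4 * M + 1)) s (rowc 2 1 D') (rowc 2 1 D') D' hreg
      (Or.inl rfl) (by omega) (by omega) (by omega) (fun y _ => row_drop h hD y) ?_
      (Or.inl hR1) m a b hab hm ?_
    · intro y hy1 hy2
      right
      exact thick h hD (by omega) (by omega) (by omega) (by omega) (by omega)
    · have e1 : ∑ c ∈ range (4 * M + 1), rowc 2 1 D' c ≤ (2 * M + 1) ^ 2 := by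
        have := sum_start (D := D') (2 * M + 1) (by omega)
        have e : 2 * (2 * M + 1) - 1 = 4 * M + 1 := by omega
        rwa [e] at this
      have e2 := sum_end h hD (4 * M + 1) (by omega)
      have e3 := card_rows_sum (D := D') R fun c hc => row_top h hD hc
      have e4 : ∑ c ∈ Ico 0 R, rowc 2 1 D' c = ∑ c ∈ range (4 * M + 1), rowc 2 1 D' c +
          (∑ c ∈ Ico (4 * M + 1) (R - (4 * M + 1)), rowc 2 1 D' c +
            ∑ c ∈ Ico (R - (4 * M + 1)) R, rowc 2 1 D' c) := by
        rw [sum_Ico_consecutive _ (by omega) (by omega), range_eq_Ico,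
          sum_Ico_consecutive _ (by omega) (by omega)]
      rw [← hR] at e2
      nlinarith

end Pool.Agent.Helper43.Gm.PkH1
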